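import Pool.Agent.Helper87.VM.Lib2

set_option autoImplicit false

namespace Pool.Agent.Helper87.VM

open MvPolynomial Pool.Agent.Helper48.VMRT

section

variable {κ : Type} [Fintype κ]

/-- The orbit polynomial of `P`. -/
noncomputable def cirrF [DecidableEq κ] (P : MvPolynomial κ ℂ) :
    Polynomial (MvPolynomial κ ℂ) :=
  ∏ σ : Equiv.Perm κ, (Polynomial.X - Polynomial.C (rename σ P))

theorem cirr_map [DecidableEq κ] {A : Type} [CommRing A] (f : MvPolynomial κ ℂ →+* A)
    (P : MvPolynomial κ ℂ) :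
    (cirrF P).map f = ∏ σ : Equiv.Perm κ, (Polynomial.X - Polynomial.C (f (rename σ P))) := by
  unfold cirrF
  rw [Polynomial.map_prod]
  simp

theorem cirr_symm [DecidableEq κ] (P : MvPolynomial κ ℂ) (l : ℕ) :
    ((cirrF P).coeff l).IsSymmetric := by
  intro τ
  have h : (cirrF P).map (rename τ : MvPolynomial κ ℂ →ₐ[ℂ] MvPolynomial κ ℂ).toRingHom =
      cirrF P := by
    rw [cirr_map]
    unfold cirrF
    refine Fintype.prod_equiv (Equiv.mulLeft τ) _ _ fun σ => ?_
    have : rename (⇑τ) (rename (⇑σ) P) = rename (⇑(τ * σ)) P := by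
      rw [rename_rename]
      rfl
    simp only [Equiv.coe_mulLeft, AlgHom.toRingHom_eq_coe, RingHom.coe_coe, this]
  have h2 := congrArg (fun q => Polynomial.coeff q l) h
  simp only [Polynomial.coeff_map] at h2
  exact h2

theorem cirr_coeff [DecidableEq κ] (P : MvPolynomial κ ℂ) (l : ℕ) :
    ∃ Q : MvPolynomial (Fin (Fintype.card κ)) ℂ,
      (cirrF P).coeff l = aeval (fun i : Fin (Fintype.card κ) => esymm κ ℂ (i + 1)) Q := by
  obtain ⟨Q, hQ⟩ := esymmAlgHom_surjective (σ := κ) (n := Fintype.card κ) ℂ le_rfl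
    ⟨(cirrF P).coeff l, cirr_symm P l⟩
  refine ⟨Q, ?_⟩
  rw [← esymmAlgHom_apply, hQ]

theorem cirr_eval [DecidableEq κ] {A : Type} [CommRing A] (f : MvPolynomial κ ℂ →+* A)
    (P : MvPolynomial κ ℂ) (h : ∀ σ : Equiv.Perm κ, f (rename σ P) = 0) (l : ℕ)
    (hl : l < Fintype.card (Equiv.Perm κ)) : f ((cirrF P).coeff l) = 0 := by
  rw [← Polynomial.coeff_map, cirr_map]
  simp only [h, map_zero, sub_zero, Finset.prod_const, Finset.card_univ]
  rw [Polynomial.coeff_X_pow, if_neg hl.ne]

theorem cirr_root [DecidableEq κ] (P : MvPolynomial κ ℂ) (z : κ → ℂ)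
    (h : ∀ l < Fintype.card (Equiv.Perm κ), eval z ((cirrF P).coeff l) = 0) : eval z P = 0 := by
  set N := Fintype.card (Equiv.Perm κ) with hN
  have hm : ((cirrF P).map (eval z)) = ∏ σ : Equiv.Perm κ,
      (Polynomial.X - Polynomial.C (eval z (rename σ P))) := cirr_map _ _
  have hmon : ((cirrF P).map (eval z)).Monic := by
    rw [hm]
    exact Polynomial.monic_prod_of_monic _ _ fun σ _ => Polynomial.monic_X_sub_C _
  have hdeg : ((cirrF P).map (eval z)).natDegree = N := by
    rw [hm, Polynomial.natDegree_prod_of_monic _ _ fun σ _ => Polynomial.monic_X_sub_C _]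
    simp [hN]
  have hX : (cirrF P).map (eval z) = Polynomial.X ^ N := by
    ext l
    rw [Polynomial.coeff_X_pow]
    split_ifs with hl
    · subst hl
      rw [← hdeg]
      exact hmon
    · rcases lt_or_gt_of_ne hl with h1 | h1
      · rw [Polynomial.coeff_map]
        exact h l h1
      · exact Polynomial.coeff_eq_zero_of_natDegree_lt (hdeg ▸ h1)
  have h1 : ((cirrF P).map (eval z)).eval (eval z P) = 0 := by
    rw [hm, Polynomial.eval_prod]
    apply Finset.prod_eq_zero (Finset.mem_univ (1 : Equiv.Perm κ))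
    have : rename (⇑(1 : Equiv.Perm κ)) P = P := by
      rw [Equiv.Perm.coe_one, rename_id_apply]
    rw [this]
    simp
  rw [hX, Polynomial.eval_pow, Polynomial.eval_X] at h1
  exact pow_eq_zero_iff (by rw [hN]; exact Fintype.card_ne_zero) |>.1 h1

theorem cirr_main (hM : 3 ≤ Fintype.card κ) {L : Type} [Field L] [Algebra ℂ L] (r : κ → L)
    (h1 : ∀ j, 1 ≤ j → j + 2 ≤ Fintype.card κ → aeval r (esymm κ ℂ j) = 0)
    (h2 : AlgebraicIndependent ℂ
      ![aeval r (esymm κ ℂ (Fintype.card κ - 1)), aeval r (esymm κ ℂ (Fintype.card κ))])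
    (h3 : ∀ (σ : Equiv.Perm κ) (P : MvPolynomial κ ℂ), aeval r P = 0 →
      aeval (fun i => r (σ i)) P = 0) :
    vanishingIdeal ℂ (Bc κ) = RingHom.ker (aeval r : MvPolynomial κ ℂ →ₐ[ℂ] L).toRingHom := by
  classical
  apply le_antisymm
  · let J : Ideal (MvPolynomial κ ℂ) := Ideal.span
      {p | ∃ j, 1 ≤ j ∧ j + 2 ≤ Fintype.card κ ∧ p = esymm κ ℂ j}
    have hJ : zeroLocus ℂ J = Bc κ := by
      ext z
      rw [mem_zeroLocus_iff]
      constructor
      · intro h j hj1 hj2
        have := h (esymm κ ℂ j) (Ideal.subset_span ⟨j, hj1, hj2, rfl⟩)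
        rwa [aeval_eq_eval] at this
      · intro h p hp
        rw [aeval_eq_eval]
        have : J ≤ RingHom.ker (eval z) := by
          rw [Ideal.span_le]
          rintro _ ⟨j, hj1, hj2, rfl⟩
          exact h j hj1 hj2
        exact this hp
    rw [← hJ, vanishingIdeal_zeroLocus_eq_radical]
    have hle : J ≤ RingHom.ker (aeval r : MvPolynomial κ ℂ →ₐ[ℂ] L).toRingHom := by
      rw [Ideal.span_le]
      rintro _ ⟨j, hj1, hj2, rfl⟩
      exact h1 j hj1 hj2
    have hpr : (RingHom.ker (aeval r : MvPolynomial κ ℂ →ₐ[ℂ] L).toRingHom).IsPrime :=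
      RingHom.ker_isPrime _
    exact hpr.radical_le_iff.2 hle
  · intro P hP
    have hP' : aeval r P = 0 := hP
    rw [mem_vI]
    intro z hz
    refine cirr_root P z fun l hl => ?_
    obtain ⟨Q, hQ⟩ := cirr_coeff P l
    -- the value of `Q` on the curve
    let f : Fin (Fintype.card κ) → MvPolynomial (Fin 2) ℂ := fun i =>
      if i.val + 2 = Fintype.card κ then X 0 else if i.val + 1 = Fintype.card κ then X 1 else 0
    have key : ∀ {A : Type} [CommRing A] [Algebra ℂ A] (s : κ → A),
        (∀ j, 1 ≤ j → j + 2 ≤ Fintype.card κ → aeval s (esymm κ ℂ j) = 0) →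
        aeval s ((cirrF P).coeff l) =
          aeval ![aeval s (esymm κ ℂ (Fintype.card κ - 1)), aeval s (esymm κ ℂ (Fintype.card κ))]
            (aeval f Q) := by
      intro A _ _ s hs
      rw [hQ]
      have e1 : aeval s (aeval (fun i : Fin (Fintype.card κ) => esymm κ ℂ (i + 1)) Q) =
          aeval (fun i : Fin (Fintype.card κ) => aeval s (esymm κ ℂ (i + 1))) Q := by
        rw [← AlgHom.comp_apply, comp_aeval]
      have e2 : aeval ![aeval s (esymm κ ℂ (Fintype.card κ - 1)),
          aeval s (esymm κ ℂ (Fintype.card κ))] (aeval f Q) =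
          aeval (fun i : Fin (Fintype.card κ) =>
            aeval ![aeval s (esymm κ ℂ (Fintype.card κ - 1)),
              aeval s (esymm κ ℂ (Fintype.card κ))] (f i)) Q := by
        rw [← AlgHom.comp_apply, comp_aeval]
      rw [e1, e2]
      congr 2
      funext i
      show _ = aeval _ (f i)
      simp only [f]
      split_ifs with h4 h5
      · rw [aeval_X]
        have : i.val + 1 = Fintype.card κ - 1 := by omega
        simp [this]
      · rw [aeval_X]
        simp [h5]
      · rw [map_zero]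
        have := i.isLt
        exact hs _ (by omega) (by omega)
    have hr0 : aeval r ((cirrF P).coeff l) = 0 := by
      refine cirr_eval (aeval r : MvPolynomial κ ℂ →ₐ[ℂ] L).toRingHom P (fun σ => ?_) l hl
      show aeval r (rename σ P) = 0
      rw [aeval_rename]
      exact h3 σ P hP'
    rw [key r h1] at hr0
    have hQ0 : aeval f Q = 0 := by
      rw [algebraicIndependent_iff] at h2
      exact h2 _ hr0
    have hz' : ∀ j, 1 ≤ j → j + 2 ≤ Fintype.card κ → aeval z (esymm κ ℂ j) = 0 := by
      intro j hj1 hj2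
      rw [aeval_eq_eval]
      exact hz j hj1 hj2
    have := key z hz'
    rw [hQ0, map_zero, aeval_eq_eval] at this
    exact this

end

theorem st_CIRR (hG : ST_GAL) : ST_CIRR := by
  intro κ _ hM
  obtain ⟨L, _, _, r, h1, h2, h3⟩ := hG (Fintype.card κ) hM
  let e : κ ≃ Fin (Fintype.card κ) := Fintype.equivFin κ
  have he : ∀ P : MvPolynomial κ ℂ, aeval (fun i => r (e i)) P = aeval r (rename e P) := by
    intro P
    rw [aeval_rename]
    rfl
  have hes : ∀ j, aeval (fun i => r (e i)) (esymm κ ℂ j) =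
      aeval r (esymm (Fin (Fintype.card κ)) ℂ j) := by
    intro j
    rw [he, rename_esymm]
  rw [cirr_main hM (fun i => r (e i)) (fun j hj1 hj2 => by rw [hes]; exact h1 j hj1 hj2)
    (by rw [hes, hes]; exact h2) ?_]
  · exact RingHom.ker_isPrime _
  · intro σ P hP
    rw [he] at hP
    have := h3 ((e.symm.trans σ).trans e) (rename e P) hP
    rw [aeval_rename] at this
    have h5 : (fun i => r (((e.symm.trans σ).trans e) i)) ∘ ⇑e = fun i => r (e (σ i)) := by
      funext i
      simp
    rw [h5] at this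
    exact this

end Pool.Agent.Helper87.VM
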